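import Pool.Agent.Helper45.AM.GoalsA

/-!
# Project AM, packet AM-AL: the mirror image of `A_K`.
-/

set_option autoImplicit false

open LaurentPolynomial Pool.Agent.Helper15.RA

noncomputable section

namespace Pool.Agent.Helper91.AM

open Pool.Agent.Helper45.AM

/-- `(x, g) ↦ (g⁻¹, x⁻¹)` -/
def flip (W : Type) [Group W] : W × W ≃ W × W where
  toFun r := (r.2⁻¹, r.1⁻¹)
  invFun r := (r.2⁻¹, r.1⁻¹)
  left_inv r := by simp
  right_inv r := by simp

theorem h_a_l (hK : A_K) (hM : A_M) : A_L := by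
  intro S W H _ _ _ X P g y hy hg
  obtain ⟨⟨F, F1, F2, F3, F4, F5⟩, hh, hXL, hXR, hleR, hleL⟩ := hM S W H X
  have hy' : XR X.cs P y⁻¹ := (hXL P y).1 hy
  have hg' : g⁻¹ ∈ par X.cs P := inv_mem hg
  obtain ⟨k1, k2, k3, p, p1, p2, p3⟩ := hK S W H X P y⁻¹ g⁻¹ hy' hg'
  have hF : F (X.D.t y⁻¹ * X.D.c g⁻¹) = X.D.c g * X.D.t y := by
    rw [F2, F1, F3, inv_inv, inv_inv]
  have hr : ∀ z, X.b.repr (X.D.c g * X.D.t y) z = X.b.repr (X.D.t y⁻¹ * X.D.c g⁻¹) z⁻¹ := by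
    intro z
    rw [← hF, F5]
  have hm : (g * y)⁻¹ = y⁻¹ * g⁻¹ := mul_inv_rev g y
  have hne : ∀ z, z ≠ g * y → z⁻¹ ≠ y⁻¹ * g⁻¹ := by
    intro z hz h
    exact hz (inv_injective (h.trans hm.symm))
  refine ⟨by rw [hr, hm, k1], ?_, ?_, ?_⟩
  · intro z hz
    rw [hr]
    exact k2 _ (hne z hz)
  · intro z hz hn
    rw [hr] at hn
    obtain ⟨x', g', a1, a2, a3, a4, a5⟩ := k3 _ (hne z hz) hn
    refine ⟨g'⁻¹, x'⁻¹, inv_mem a2, (hXL P _).2 (by rwa [inv_inv]), ?_, ?_, ?_⟩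
    · rw [← mul_inv_rev, ← a3, inv_inv]
    · rw [X.cs.length_inv] at a4 ⊢
      exact a4
    · rw [hleR, inv_inv]
      exact a5
  · refine ⟨p.equivMapDomain (flip W), ?_, ?_, ?_⟩
    · intro r
      rw [Finsupp.equivMapDomain_apply]
      exact p1 _
    · intro r hr'
      rw [Finsupp.mem_support_iff, Finsupp.equivMapDomain_apply, ← Finsupp.mem_support_iff] at hr'
      obtain ⟨b1, b2, b3, b4⟩ := p2 _ hr'
      have e1 : ((flip W).symm r).1 = r.2⁻¹ := rfl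
      have e2 : ((flip W).symm r).2 = r.1⁻¹ := rfl
      rw [e1] at b1 b3
      rw [e2] at b2 b4
      refine ⟨by simpa using inv_mem b2, (hXL P _).2 b1, ?_, (hleR P _ _).2 b4⟩
      rw [X.cs.length_inv, X.cs.length_inv] at b3
      exact b3
    · have h1 : F (X.D.c (y⁻¹ * g⁻¹)) = X.D.c (g * y) := by rw [F3, ← hm, inv_inv]
      rw [← h1, p3, map_add, hF, Finsupp.sum, map_sum, Finsupp.equivMapDomain_eq_mapDomain,
        Finsupp.sum_mapDomain_index_inj (flip W).injective, Finsupp.sum]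
      congr 1
      refine Finset.sum_congr rfl fun r _ => ?_
      rw [map_smul, F2, F1, F3]
      rfl

end Pool.Agent.Helper91.AM
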