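import Pool.Agent.Helper45.AM.GoalsP

/-!
# Project AM, packet AM-P2: `PG` for direct products.
-/

set_option autoImplicit false

open LaurentPolynomial Pool.Agent.Helper15.RA

noncomputable section

namespace Pool.Agent.Helper91.AM

open Pool.Agent.Helper45.AM

theorem h_p_2 (hP : P_1) (hS : A_S) : P_2 := by
  classical
  intro S W H _ _ _ X P Q α β hM pg pg'
  obtain ⟨q1, q2, q3, q4, q5⟩ := hP S W H X P Q hM
  obtain ⟨s1, -⟩ := hS S W H X (P ∪ Q)
  let γ : W → ℕ := fun w => if h : ∃ p : W × W, p.1 ∈ par X.cs P ∧ p.2 ∈ par X.cs Q ∧ w = p.1 * p.2 then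
    α h.choose.1 + β h.choose.2 else 0
  have hγ : ∀ g ∈ par X.cs P, ∀ g' ∈ par X.cs Q, γ (g * g') = α g + β g' := by
    intro g hg g' hg'
    have h : ∃ p : W × W, p.1 ∈ par X.cs P ∧ p.2 ∈ par X.cs Q ∧ g * g' = p.1 * p.2 :=
      ⟨(g, g'), hg, hg', rfl⟩
    have h1 : γ (g * g') = α h.choose.1 + β h.choose.2 := dif_pos h
    obtain ⟨c1, c2, c3⟩ := h.choose_spec
    obtain ⟨e1, e2⟩ := q2 g hg g' hg' _ c1 _ c2 c3
    rw [h1, ← e1, ← e2]
  have hprod : ∀ g ∈ par X.cs P, ∀ g' ∈ par X.cs Q, ∀ k ∈ par X.cs P, ∀ k' ∈ par X.cs Q,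
      ∀ l ∈ par X.cs P, ∀ l' ∈ par X.cs Q, DegLE (γ (l * l') : ℤ) (X.h (g * g') (k * k') (l * l')) ∧
      (X.h (g * g') (k * k') (l * l')).coeff (γ (l * l') : ℤ) =
        (X.h g k l).coeff (α l) * (X.h g' k' l').coeff (β l') := by
    intro g hg g' hg' k hk k' hk' l hl l' hl'
    rw [(q5 g hg g' hg' k hk k' hk' l hl l' hl').1, hγ l hl l' hl', Nat.cast_add]
    exact ⟨(pg.deg g hg k hk l hl).mul (pg'.deg g' hg' k' hk' l' hl'),
      coeff_mul_top (pg.deg g hg k hk l hl) (pg'.deg g' hg' k' hk' l' hl')⟩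
  refine ⟨γ, ⟨?_, ?_, ?_, ?_, ?_, ?_, ?_⟩, hγ⟩
  · obtain ⟨N, hN⟩ := pg.bdd
    obtain ⟨N', hN'⟩ := pg'.bdd
    refine ⟨N + N', fun x hx y hy z => ?_⟩
    by_cases hz : z ∈ par X.cs (P ∪ Q)
    · obtain ⟨g, hg, g', hg', rfl⟩ := (q3 x).1 hx
      obtain ⟨k, hk, k', hk', rfl⟩ := (q3 y).1 hy
      obtain ⟨l, hl, l', hl', rfl⟩ := (q3 z).1 hz
      rw [(q5 g hg g' hg' k hk k' hk' l hl l' hl').2, Nat.cast_add]
      exact (hN g hg k hk l).mul (hN' g' hg' k' hk' l')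
    · have h0 : X.D.t.repr (X.D.t x * X.D.t y) z = 0 := by
        by_contra h
        have h1 := s1 x hx y z h
        have h2 := mul_mem h1 hy
        rw [inv_mul_cancel_right] at h2
        exact hz h2
      rw [h0]
      exact DegLE.zero _
  · intro x hx y hy z hz
    obtain ⟨g, hg, g', hg', rfl⟩ := (q3 x).1 hx
    obtain ⟨k, hk, k', hk', rfl⟩ := (q3 y).1 hy
    obtain ⟨l, hl, l', hl', rfl⟩ := (q3 z).1 hz
    exact (hprod g hg g' hg' k hk k' hk' l hl l' hl').1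
  · intro z hz
    obtain ⟨l, hl, l', hl', rfl⟩ := (q3 z).1 hz
    obtain ⟨g, hg, k, hk, h1⟩ := pg.low l hl
    obtain ⟨g', hg', k', hk', h2⟩ := pg'.low l' hl'
    refine ⟨g * g', (q3 _).2 ⟨g, hg, g', hg', rfl⟩, k * k', (q3 _).2 ⟨k, hk, k', hk', rfl⟩, ?_⟩
    rw [(hprod g hg g' hg' k hk k' hk' l hl l' hl').2]
    exact mul_ne_zero h1 h2
  · intro z hz
    obtain ⟨l, hl, l', hl', rfl⟩ := (q3 z).1 hz
    rw [(q4 l hl l' hl').2, hγ l hl l' hl']
    exact (pg.p1 l hl).mul_le (pg'.p1 l' hl') (by push_cast; omega)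
  · intro x hx y hy z hz h
    obtain ⟨g, hg, g', hg', rfl⟩ := (q3 x).1 hx
    obtain ⟨k, hk, k', hk', rfl⟩ := (q3 y).1 hy
    obtain ⟨l, hl, l', hl', rfl⟩ := (q3 z).1 hz
    rw [(q5 g hg g' hg' k hk k' hk' l hl l' hl').1] at h
    obtain ⟨a1, a2⟩ := pg.p4 g hg k hk l hl (left_ne_zero_of_mul h)
    obtain ⟨b1, b2⟩ := pg'.p4 g' hg' k' hk' l' hl' (right_ne_zero_of_mul h)
    rw [hγ g hg g' hg', hγ k hk k' hk', hγ l hl l' hl']
    exact ⟨add_le_add a1 b1, add_le_add a2 b2⟩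
  · intro x hx y hy z hz h
    obtain ⟨g, hg, g', hg', rfl⟩ := (q3 x).1 hx
    obtain ⟨k, hk, k', hk', rfl⟩ := (q3 y).1 hy
    obtain ⟨l, hl, l', hl', rfl⟩ := (q3 z).1 hz
    rw [(hprod g hg g' hg' k hk k' hk' l hl l' hl').2] at h
    obtain ⟨a1, a2⟩ := pg.p8 g hg k hk l hl (left_ne_zero_of_mul h)
    obtain ⟨b1, b2⟩ := pg'.p8 g' hg' k' hk' l' hl' (right_ne_zero_of_mul h)
    rw [hγ g hg g' hg', hγ k hk k' hk', hγ l hl l' hl', a1, a2, b1, b2]
    exact ⟨rfl, rfl⟩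
  · intro w hw
    obtain ⟨g, hg, g', hg', rfl⟩ := (q3 w).1 hw
    obtain ⟨lam, m1, m2⟩ := pg.u g hg
    obtain ⟨lam', m1', m2'⟩ := pg'.u g' hg'
    let Λ : W × W →₀ ℤ := ∑ p ∈ lam.support, ∑ p' ∈ lam'.support,
      Finsupp.single (p.1 * p'.1, p.2 * p'.2) (lam p * lam' p')
    refine ⟨Λ, ?_, ?_⟩
    · intro p hp
      rw [Finsupp.mem_support_iff] at hp
      have hp' : (∑ r ∈ lam.support, ∑ r' ∈ lam'.support,
          (Finsupp.single (r.1 * r'.1, r.2 * r'.2) (lam r * lam' r') : W × W →₀ ℤ) p) ≠ 0 := by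
        have h1 : Λ p = ∑ r ∈ lam.support, ∑ r' ∈ lam'.support,
          (Finsupp.single (r.1 * r'.1, r.2 * r'.2) (lam r * lam' r') : W × W →₀ ℤ) p := by
          simp only [Λ, Finsupp.finsetSum_apply]
        rwa [← h1]
      obtain ⟨r, hr, h2⟩ := Finset.exists_ne_zero_of_sum_ne_zero hp'
      obtain ⟨r', hr', h3⟩ := Finset.exists_ne_zero_of_sum_ne_zero h2
      rw [Finsupp.single_apply] at h3
      have h4 : (r.1 * r'.1, r.2 * r'.2) = p := by
        by_contra h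
        exact h3 (if_neg h)
      rw [← h4]
      exact ⟨(q3 _).2 ⟨_, (m1 r hr).1, _, (m1' r' hr').1, rfl⟩,
        (q3 _).2 ⟨_, (m1 r hr).2, _, (m1' r' hr').2, rfl⟩⟩
    · intro z hz
      obtain ⟨l, hl, l', hl', rfl⟩ := (q3 z).1 hz
      have e1 := m2 l hl
      have e2 := m2' l' hl'
      have h1 : (Λ.sum fun p m => m * (X.h p.1 p.2 (l * l')).coeff (γ (l * l') : ℤ)) =
          Finsupp.linearCombination ℤ
            (fun p : W × W => (X.h p.1 p.2 (l * l')).coeff (γ (l * l') : ℤ)) Λ := by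
        rw [Finsupp.linearCombination_apply]
        rfl
      rw [h1]
      simp only [Λ, map_sum, Finsupp.linearCombination_single]
      have h2 : ∀ p ∈ lam.support, ∀ p' ∈ lam'.support,
          (lam p * lam' p') • (X.h (p.1 * p'.1) (p.2 * p'.2) (l * l')).coeff (γ (l * l') : ℤ) =
          (lam p * (X.h p.1 p.2 l).coeff (α l)) * (lam' p' * (X.h p'.1 p'.2 l').coeff (β l')) := by
        intro p hp p' hp'
        rw [(hprod p.1 (m1 p hp).1 p'.1 (m1' p' hp').1 p.2 (m1 p hp).2 p'.2 (m1' p' hp').2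
          l hl l' hl').2, smul_eq_mul]
        ring
      rw [Finset.sum_congr rfl fun p hp => Finset.sum_congr rfl fun p' hp' => h2 p hp p' hp']
      rw [← Finset.sum_mul_sum]
      have h3 : ∑ p ∈ lam.support, lam p * (X.h p.1 p.2 l).coeff (α l) = if l = g then 1 else 0 := e1
      have h4 : ∑ p' ∈ lam'.support, lam' p' * (X.h p'.1 p'.2 l').coeff (β l') =
          if l' = g' then 1 else 0 := e2
      rw [h3, h4]
      by_cases c1 : l = g
      · by_cases c2 : l' = g'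
        · rw [if_pos c1, if_pos c2, if_pos (by rw [c1, c2])]
          rfl
        · rw [if_neg c2, if_neg (fun h => c2 (q2 l hl l' hl' g hg g' hg' h).2), mul_zero]
      · rw [if_neg c1, if_neg (fun h => c1 (q2 l hl l' hl' g hg g' hg' h).1), zero_mul]

end Pool.Agent.Helper91.AM
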